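import Pool.Agent.Y192.FA.StB

/-!
Closure properties of controlled functions and roots of monic polynomials, over function fields
(adapted from `Y852/OG/Ctl.lean` and `Y105/OG/Root.lean`).
-/

set_option autoImplicit false

namespace Pool.Agent.Y812.FF

open Pool.Agent.W603.LV Pool.Agent.Y192.FA

theorem t_ctl : St_ring → St_ord → St_ctl := by
  intro hring hord N c F r Φ
  obtain ⟨hmul0, -, -, hntop⟩ := hring N c
  obtain ⟨horder, hdelU, hbadU, hbad0, -, -, -, -⟩ := hord N c
  have hdel : ∀ z : c.P, 0 ≤ ∑ φ ∈ Φ, |c.del z φ| := fun z =>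
    Finset.sum_nonneg fun _ _ => abs_nonneg _
  have hbad : ∀ z : c.P, 0 ≤ c.bad z := fun z => (hbad0 z).1
  have hone : ∀ z ∈ c.E, (0 : WithTop ℤ) ≤ c.ord z 1 := by
    intro z hz
    have h1 := (horder z hz).2.2.2.2.2 0
    rw [c.mon_zero] at h1
    rw [h1]
    have h2 : c.del z 0 = 0 := by unfold Curve.del; simp
    rw [h2]; rfl
  refine ⟨?_, ?_, ?_, ?_, ?_, ?_, ?_, ?_, ?_⟩
  · -- monomials
    intro m
    refine ⟨trivial, ?_⟩
    intro z hz
    rw [(horder z hz).2.2.2.2.2 m]
    simp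
  · -- monomials of the list
    intro φ hφ
    refine ⟨trivial, ?_⟩
    intro z hz
    rw [(horder z hz).2.2.2.2.2 φ]
    have h1 : |c.del z φ| ≤ ∑ φ ∈ Φ, |c.del z φ| :=
      Finset.single_le_sum (f := fun φ => |c.del z φ|) (fun _ _ => abs_nonneg _) hφ
    have h2 := neg_abs_le (c.del z φ)
    have h3 := hbad z
    norm_cast
    push_cast
    linarith
  · -- logarithmic derivatives
    intro m
    refine ⟨trivial, ?_⟩
    intro z hz
    obtain ⟨omul, -, -, oU, oD, omon⟩ := horder z hz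
    by_cases hzU : z ∈ c.U
    · refine le_trans ?_ (oU hzU _)
      have h1 := hdel z
      have h2 := hbad z
      norm_cast
      push_cast
      linarith
    · have hb : 1 - vo z c.D ≤ c.bad z := by
        unfold Curve.bad
        rw [if_neg hzU]
        have := le_max_left (-(vo z c.D)) 0
        linarith
      rw [omul, omon (-m)]
      have h1 : ((c.del z m - 1 + vo z c.D : ℤ) : WithTop ℤ) ≤ c.ord z (c.Dr (c.mon m)) := by
        rw [c.le_ord, c.coe_Dr]
        exact c.ge_D z (c.le_ord.1 (omon m).ge)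
      have h2 : c.del z (-m) = -c.del z m := by
        unfold Curve.del
        rw [← Finset.sum_neg_distrib]
        exact Finset.sum_congr rfl fun i _ => by rw [Pi.neg_apply]; ring
      rw [h2]
      have h3 : ((-c.del z m : ℤ) : WithTop ℤ) + ((c.del z m - 1 + vo z c.D : ℤ) : WithTop ℤ) ≤
          ((-c.del z m : ℤ) : WithTop ℤ) + c.ord z (c.Dr (c.mon m)) := by gcongr
      refine le_trans ?_ h3
      have h4 := hdel z
      norm_cast
      push_cast
      linarith
  · -- constants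
    intro x
    refine ⟨trivial, ?_⟩
    intro z hz
    rw [Algebra.algebraMap_eq_smul_one]
    refine le_trans ?_ ((horder z hz).2.2.1 x 1)
    simpa using hone z hz
  · -- the polynomial
    intro hF
    refine ⟨trivial, ?_⟩
    intro z hz
    have h1 := hntop F hF z hz
    simp only [Nat.cast_zero, zero_mul, sub_zero]
    rw [WithTop.coe_untop₀_of_ne_top h1]
  · -- products
    rintro g h lm lm' nu nu' w w' ⟨-, hg⟩ ⟨-, hh⟩
    refine ⟨trivial, ?_⟩
    intro z hz
    rw [(horder z hz).1]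
    refine le_trans ?_ (add_le_add (hg z hz) (hh z hz))
    norm_cast
    push_cast
    ring_nf
    exact le_refl _
  · -- sums
    rintro g h lm nu w ⟨-, hg⟩ ⟨-, hh⟩
    refine ⟨trivial, ?_⟩
    intro z hz
    exact le_trans (le_min (hg z hz) (hh z hz)) ((horder z hz).2.1 g h)
  · -- multiples
    rintro x g lm nu w ⟨-, hg⟩
    refine ⟨trivial, ?_⟩
    intro z hz
    exact (hg z hz).trans ((horder z hz).2.2.1 x g)
  · -- larger weights
    rintro g lm nu w w' hww ⟨-, hg⟩
    refine ⟨trivial, ?_⟩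
    intro z hz
    refine le_trans ?_ (hg z hz)
    have h1 := hdel z
    have h2 := hbad z
    have h3 : (w : ℤ) ≤ w' := by exact_mod_cast hww
    have h4 : (w : ℤ) * (∑ φ ∈ Φ, |c.del z φ| + c.bad z) ≤
        w' * (∑ φ ∈ Φ, |c.del z φ| + c.bad z) :=
      mul_le_mul_of_nonneg_right h3 (by linarith)
    exact_mod_cast (show nu z - (w' : ℤ) * (∑ φ ∈ Φ, |c.del z φ| + c.bad z) ≤
      nu z - w * (∑ φ ∈ Φ, |c.del z φ| + c.bad z) by linarith)

theorem t_root : St_ring → St_ord → St_root := by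
  intro hring hord N c F r Φ w d h a lm nu hrel hctl
  have hnt := (hring N c).2.1
  obtain ⟨hO, -⟩ := hord N c
  have hd : 1 ≤ d := by
    by_contra h0
    have h0' : d = 0 := by omega
    subst h0'
    simp at hrel
  refine ⟨trivial, ?_⟩
  intro z hz
  obtain ⟨omul, oadd, osmul, -, -, omon⟩ := hO z hz
  set v : ℤ := nu z - w * (∑ φ ∈ Φ, |c.del z φ| + c.bad z) with hv
  have o1 : c.ord z 1 = ((0 : ℤ) : WithTop ℤ) := by
    rw [← c.mon_zero, omon 0]
    simp [Curve.del]
  by_contra hlt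
  rw [not_le] at hlt
  obtain ⟨k, hk⟩ := WithTop.ne_top_iff_exists.1 hlt.ne_top
  have hkv : k < v := by
    rw [← hk] at hlt
    exact_mod_cast hlt
  have opow : ∀ m : ℕ, c.ord z (h ^ m) = ((m * k : ℤ) : WithTop ℤ) := by
    intro m
    induction m with
    | zero => rw [pow_zero, o1]; simp
    | succ m ih =>
      rw [pow_succ, omul, ih, ← hk, ← WithTop.coe_add]
      congr 1
      push_cast
      ring
  have hterm : ∀ j ∈ Finset.Icc 1 d,
      ((d * k + 1 : ℤ) : WithTop ℤ) ≤ c.ord z (a j * h ^ (d - j)) := by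
    intro j hj
    obtain ⟨hj1, hj2⟩ := Finset.mem_Icc.1 hj
    have h1 := (hctl j hj).2 z hz
    rw [omul, opow]
    refine le_trans ?_ (add_le_add_left h1 _)
    rw [← WithTop.coe_add, WithTop.coe_le_coe]
    have e1 : ((d - j : ℕ) : ℤ) = d - j := by push_cast [hj2]; ring
    rw [e1]
    have e2 : (j : ℤ) * nu z - ((j * w : ℕ) : ℤ) * (∑ φ ∈ Φ, |c.del z φ| + c.bad z) = j * v := by
      rw [hv]; push_cast; ring
    rw [e2]
    have h3 : (j : ℤ) * (k + 1) ≤ j * v := by
      apply mul_le_mul_of_nonneg_left _ (by positivity)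
      omega
    have h4 : (1 : ℤ) ≤ j := by exact_mod_cast hj1
    nlinarith
  have hsum : ((d * k + 1 : ℤ) : WithTop ℤ) ≤
      c.ord z (∑ j ∈ Finset.Icc 1 d, a j * h ^ (d - j)) := by
    refine Finset.sum_induction_nonempty _
      (fun f => ((d * k + 1 : ℤ) : WithTop ℤ) ≤ c.ord z f) ?_
      ⟨1, Finset.mem_Icc.2 ⟨le_rfl, hd⟩⟩ hterm
    intro f g hf hg
    exact (le_min hf hg).trans (oadd f g)
  have h5 : h ^ d = (-1 : ℂ) • ∑ j ∈ Finset.Icc 1 d, a j * h ^ (d - j) := by
    rw [neg_smul, one_smul]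
    exact eq_neg_of_add_eq_zero_left hrel
  have h6 := hsum.trans (osmul (-1) _)
  rw [← h5, opow, WithTop.coe_le_coe] at h6
  omega

end Pool.Agent.Y812.FF
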